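import Pool.Agent.H187R3.Main

/-!
# The Borisov-Alexeev-Borisov statement fails over arbitrary fields

Characteristic 2. Let `ℓ = F_2(t_j : j ∈ J)`, where `J` consists of three indices `e_0, e_1, e_2`
and of indices `a_n, b_n` for `0 ≤ n < M`. On the polynomial ring `ℓ[Y_0, Y_1, Y_2]` consider the
derivation `D` which kills the `Y_i` and such that `D e_i = Y_i²`, `D a_n = Y_0 σ_n`,
`D b_n = Y_1 σ_n` where `σ_0 = Y_2`, `σ_{n+1} = Y_1 a_n + Y_0 b_n`. Then `D² = 0`, the kernel
`S` of `D` is a graded ring with `S_0 = k := ℓ²` and `X_M = Proj S = ℙ²_ℓ / D` is a regular surface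
over `k = H⁰(X_M, O)`: each chart is a localization of a polynomial ring over `F_2`.
The canonical divisor of `X_M` is `-H`, with `H` the divisor of the section `Y_0 ∈ S_1`, so that
`X_M` is a del Pezzo surface, and, being regular, it is epsilon-klt for all `ε < 1`. The function
field of `X_M` has a large number (`≥ 2 M + 4`) of `p`-independent elements all of which are
needed to generate it over `k`; in a bounded family the number of generators needed is bounded.
(The anticanonical volume of `X_M` is `2 ^ (2 M + 2)`.)
-/

open Pool.Agent.H187R3

/-- For every `ε < 1` the epsilon-klt del Pezzo surfaces (Fano varieties of dimension two) do not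
form a bounded class. -/
theorem Pool.Agent.Results.MP_4d8271_ag.BABFails.result :
    ∀ ε : ℚ, ε < 1 → ¬ IsBoundedClass (IsEpsKltFano ε 2) :=
  fun ε hε => not_bounded ε hε
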